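import Mathlib
import Pool.Agent.Lib.MP_d107a2_lc.Nonsep

open Set Pool.Agent.Lib.MP_d107a2_lc

namespace Pool.Agent.Results.MP_d107a2_lc.SeqCompactBiorth

/-- Assume PID and `ℵ₁ < 𝔟`. If the dual of a real or complex Banach space `X` contains a
weak-star sequentially compact set `K` whose points are not separated by any countable subset
of `X`, then `X` has an uncountable biorthogonal system. The case where `K` is the dual unit
ball of a nonseparable space is `nonseparable_case` in the imported file. -/
theorem result (hPID : PID) (hb : Cardinal.aleph 1 < bounding)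
    (𝕜 : Type) [RCLike 𝕜] (X : Type*) [NormedAddCommGroup X] [NormedSpace 𝕜 X] [CompleteSpace X]
    (K : Set (WeakDual 𝕜 X)) (hK : IsSeqCompact K)
    (hsep : ∀ C : Set X, C.Countable → ∃ u ∈ K, ∃ v ∈ K, u ≠ v ∧ ∀ x ∈ C, u x = v x) :
    HasUncountableBiorthogonal 𝕜 X :=
  seqCompact_main hPID hb K hK hsep

end Pool.Agent.Results.MP_d107a2_lc.SeqCompactBiorth
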