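import Mathlib
import Pool.Agent.Lib.MP_d107a2_lc.AllSpaces

open Set Pool.Agent.Lib.MP_d107a2_lc

namespace Pool.Agent.Results.MP_d107a2_lc.SmallInvariants

/-- Assume PID and `ℵ₁ < 𝔟`. If some nonseparable real or complex Banach space has no uncountable
biorthogonal system, then the splitting number and the covering number of the meagre ideal are
both at most `ℵ₁`. -/
theorem result (hPID : PID) (hb : Cardinal.aleph 1 < bounding)
    (𝕜 : Type) [RCLike 𝕜] (X : Type*) [NormedAddCommGroup X] [NormedSpace 𝕜 X] [CompleteSpace X]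
    (hX : ¬ TopologicalSpace.SeparableSpace X) (hno : ¬ HasUncountableBiorthogonal 𝕜 X) :
    splitting ≤ Cardinal.aleph 1 ∧ covMeagre ≤ Cardinal.aleph 1 :=
  ⟨le_of_not_gt fun h => hno (allSpaces hPID hb (Or.inl h) hX),
    le_of_not_gt fun h => hno (allSpaces hPID hb (Or.inr h) hX)⟩

end Pool.Agent.Results.MP_d107a2_lc.SmallInvariants
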