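import Mathlib
import Pool.Agent.Lib.MP_d107a2_lc.Tame

open Set Pool.Agent.Lib.MP_d107a2_lc

namespace Pool.Agent.Results.MP_d107a2_lc.TameSubsets

/-- Assume PID and `ℵ₁ < 𝔟`. Let `K` be a weak-star compact set of functionals on a real or complex
Banach space `X` and let `F` be a set of vectors such that no countable subset of `F` separates
`K` as well as `F` does, and such that no sequence in `F` which is bounded on `K` has a lower
`ℓ₁`-estimate on `K`. Then `X` has an uncountable biorthogonal system. The case where `K` is the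
dual unit ball, that is, of a nonseparable set `F` without sequences equivalent to the basis of
`ℓ₁`, is `tame_main` in the imported file. -/
theorem result (hPID : PID) (hb : Cardinal.aleph 1 < bounding)
    (𝕜 : Type) [RCLike 𝕜] (X : Type*) [NormedAddCommGroup X] [NormedSpace 𝕜 X] [CompleteSpace X]
    (K : Set (WeakDual 𝕜 X)) (hK : IsCompact K) (F : Set X)
    (hsep : ∀ C ⊆ F, C.Countable →
      ∃ u ∈ K, ∃ v ∈ K, (∀ x ∈ C, u x = v x) ∧ ∃ y ∈ F, u y ≠ v y)
    (htame : ∀ x : ℕ → X, (∀ n, x n ∈ F) → (∃ R : ℝ, ∀ n, ∀ u ∈ K, ‖u (x n)‖ ≤ R) →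
      ∀ δ : ℝ, 0 < δ → ∃ c : ℕ →₀ 𝕜, ∀ u ∈ K,
        ‖u (Finsupp.linearCombination 𝕜 x c)‖ < δ * ∑ n ∈ c.support, ‖c n‖) :
    HasUncountableBiorthogonal 𝕜 X :=
  tame_compact hPID hb K hK F hsep htame

end Pool.Agent.Results.MP_d107a2_lc.TameSubsets
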